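import Mathlib
import Pool.Agent.U603.Rig.Defs
import Pool.Agent.U603.Rig.Main

/-!
# The rigid synchrony conjecture

Every rigid synchrony pattern of a hyperbolic periodic orbit of an admissible `C^1` vector field of
a network is balanced. The definitions are in `Pool/Agent/U603/Rig/Defs.lean`.

Idea of the proof.
* Persistence (`Persist.lean`): every `C^1`-small perturbation `f + g` of `f` has a periodic orbit
  near `x`, and it depends on `g` in a Lipschitz way with respect to the `L¹` norm of the
  perturbation ALONG THE ORBIT. So a narrow bump has a small effect on the whole orbit, but a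
  pointwise effect of size one on the derivative at its centre.
* Minimality (`Main.lean`): among all small perturbations and all times choose a pair `(g, t₀)` with
  the smallest number of coincidences `x_a(t₀) = x_b(t₀)` and of nodes at rest at the time `t₀`. These
  coincidences are stable under all small perturbations and changes of time.
* Pulses (`Stab1.lean`): if the input signal of `a` is not constant near `t₀`, put a narrow admissible
  bump at a nonatomic value of it; a stable coincidence `x_a = x_b` forces the inputs of `a` and `b` to
  coincide (up to an input isomorphism) at that time; and `a` is not stably at rest.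
* Nodes at rest (`Stab2.lean`) are closed under taking inputs. For them a count of dimensions is used:
  perturbations realise all of the polydiagonal of the relation `inputs coincide`, and the response of
  the orbit lies in the polydiagonal of the relation `states coincide`.
* So the stable coincidences form a balanced relation; its polydiagonal is flow invariant, hence the
  coincidences hold at all times, and they are exactly the synchronies of `x`.
-/

set_option autoImplicit false

namespace Pool.Agent.Results.MP_e1010f_an.RigidSynchrony

open Pool.Agent.U603.Rig

/-- **Rigid synchrony conjecture.** Let `f` be an admissible vector field of class `C^1` of a network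
`G` (for either of the two readings `Admissible`, `ProductAdmissible` of admissibility), and let `x`
be a hyperbolic periodic orbit of `f` whose synchrony pattern is rigid. Then for all nodes `c`, `d`
with `x_c = x_d` (at all times) and `P_c ≠ 0` there is an input isomorphism `β : I(c) → I(d)` with
`x_(tail e) = x_(tail β(e))` for all `e ∈ I(c)`. In particular, if all state spaces are nonzero, the
synchrony pattern of `x` is balanced. -/
theorem result (G : Network) (S : StateSpaces G) (f : S.Phase → S.Phase) (x : ℝ → S.Phase) (T : ℝ)
    (hx : S.IsHyperbolicOrbit f x T) (Adm : (S.Phase → S.Phase) → Prop)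
    (hAdm : Adm = S.Admissible ∨ Adm = S.ProductAdmissible) (hfA : Adm f)
    (hrig : S.IsRigid Adm f x T) :
    (∀ c d : G.Node, S.Sync x c d → 0 < S.dim (S.label (G.nodeType c)) →
      ∃ β : G.InputIso c d, ∀ e : G.Input c, S.Sync x (G.src e) (G.src (β.toEquiv e))) ∧
    ((∀ l, 0 < S.dim l) → IsBalanced G (S.Sync x)) := by
  obtain ⟨hf, hx, hyp⟩ := hx
  have hfA' : S.Admissible f := by
    rcases hAdm with rfl | rfl
    · exact hfA
    · exact StateSpaces.ProductAdmissible.admissible S hfA
  have hadd : ∀ g, S.Pert g → Adm (fun y => f y + g y) := by
    intro g hg
    rcases hAdm with rfl | rfl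
    · exact hfA.add S (StateSpaces.ProductAdmissible.admissible S hg.adm)
    · exact hfA.add S hg.adm
  have main : ∀ c d : G.Node, S.Sync x c d → 0 < S.dim (S.label (G.nodeType c)) →
      ∃ β : G.InputIso c d, ∀ e : G.Input c, S.Sync x (G.src e) (G.src (β.toEquiv e)) := by
    intro c d hcd hpos
    have hv : (EuclideanSpace.single ⟨0, hpos⟩ 1 : S.St c) ≠ 0 := by
      simp
    refine S.core f hfA' hf x T hx hyp ?_ c d hcd _ hv
    obtain ⟨δ, hδ, h⟩ := hrig
    refine ⟨δ, hδ, fun g hg hsm x' T' hx' hT' hnear => ?_⟩
    refine h (fun y => f y + g y) (hadd g hg) ⟨hf.add hg.bc.smooth, fun y => ⟨?_, ?_⟩⟩ x'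
      ⟨T', hx', hT', hnear⟩
    · simpa using (hsm y).1
    · have e : fderiv ℝ (fun y => f y + g y) y = fderiv ℝ f y + fderiv ℝ g y :=
        fderiv_fun_add ((hf.differentiable (by norm_num)) y) (hg.bc.diff y)
      rw [e, add_sub_cancel_left]
      exact (hsm y).2
  exact ⟨main, fun hpos c d hcd => main c d hcd (hpos _)⟩

end Pool.Agent.Results.MP_e1010f_an.RigidSynchrony
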